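import Mathlib

set_option autoImplicit false
open FirstOrder FirstOrder.Language

/-!
# MP_6e9b54_lc: minimality of the topology of pointwise convergence

`M` is a countable structure in a countable language whose complete theory is countably
categorical.  We prove that every Hausdorff semigroup topology on `End(M)` that is coarser than the
topology of pointwise convergence is equal to it.

The file contains a proof of the Ryll-Nardzewski theorem (countable categoricity gives finitely
many types of tuples, and tuples of the same type are conjugate under automorphisms).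
-/

namespace Pool.Agent.Results.MP_6e9b54_lc.MinimalTopology

/-- Countable categoricity: all countably infinite models of the complete theory of `M` are
isomorphic. -/
def OmegaCategorical (L : FirstOrder.Language.{0, 0}) (M : Type) [L.Structure M] : Prop :=
  Cardinal.Categorical.{0, 0, 0} Cardinal.aleph0 (L.completeTheory M)

/-- The topology of pointwise convergence on `End(M)`: the topology induced from the product
topology on `M → M`, with `M` discrete. -/
@[reducible] def pointwise (L : FirstOrder.Language.{0, 0}) (M : Type) [L.Structure M] :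
    TopologicalSpace (M →[L] M) :=
  TopologicalSpace.induced (fun f => (f : M → M))
    (@Pi.topologicalSpace M (fun _ => M) (fun _ => ⊥))

/-- A topology on `End(M)` is a semigroup topology if composition is jointly continuous. -/
def IsSemigroupTopology {L : FirstOrder.Language.{0, 0}} {M : Type} [L.Structure M]
    (τ : TopologicalSpace (M →[L] M)) : Prop :=
  @Continuous _ _ (@instTopologicalSpaceProd _ _ τ τ) τ
    (fun p : (M →[L] M) × (M →[L] M) => p.1.comp p.2)

section RN

variable {L : FirstOrder.Language.{0, 0}}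

/-- Two tuples have the same complete type over the empty set. -/
def SameType (L : FirstOrder.Language.{0, 0}) {M : Type} [L.Structure M] {ι : Type}
    (x y : ι → M) : Prop :=
  ∀ φ : L.Formula ι, (φ.Realize x ↔ φ.Realize y)

/-- The type of the tuple `x` is isolated. -/
def Isolated (L : FirstOrder.Language.{0, 0}) {M : Type} [L.Structure M] {ι : Type}
    (x : ι → M) : Prop :=
  ∃ θ : L.Formula ι, θ.Realize x ∧ ∀ y : ι → M, θ.Realize y → SameType L x y

variable {M : Type} [L.Structure M]

/-- A finite satisfiable piece of information on a sequence of elements. -/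
structure Cond (L : FirstOrder.Language.{0, 0}) (M : Type) [L.Structure M] where
  n : ℕ
  θ : L.Formula (Fin n)
  sat : ∃ v : ℕ → M, θ.Realize (fun k => v k)

/-- The sequence `v` satisfies the condition `c`. -/
def Cond.R (c : Cond L M) (v : ℕ → M) : Prop := c.θ.Realize (fun k => v k)

instance : Preorder (Cond L M) where
  le c c' := ∀ v, c'.R v → c.R v
  le_refl _ _ h := h
  le_trans _ _ _ h1 h2 v h := h1 v (h2 v h)

theorem exists_bound {α : Type} [Finite α] (g : α → ℕ) : ∃ m, ∀ a, g a < m := by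
  obtain ⟨m, hm⟩ := (Set.finite_range g).bddAbove
  exact ⟨m + 1, fun a => Nat.lt_succ_of_le (hm ⟨a, rfl⟩)⟩

theorem Cond.extend (c : Cond L M) {α : Type} [Finite α] (ψ : L.Formula α) (g : α → ℕ)
    (v : ℕ → M) (hc : c.R v) (hψ : ψ.Realize (v ∘ g)) :
    ∃ c' : Cond L M, c ≤ c' ∧ ∀ v, c'.R v → ψ.Realize (v ∘ g) := by
  obtain ⟨m, hm⟩ := exists_bound g
  have hR : ∀ v : ℕ → M,
      ((c.θ.relabel (Fin.castLE (le_max_left c.n m)) : L.Formula (Fin (max c.n m))) ⊓
        ψ.relabel (fun a => (⟨g a, (hm a).trans_le (le_max_right _ _)⟩ : Fin (max c.n m)))).Realize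
          (fun k => v k) ↔ c.R v ∧ ψ.Realize (v ∘ g) := by
    intro v
    rw [Formula.realize_inf, Formula.realize_relabel, Formula.realize_relabel]
    rfl
  refine ⟨⟨max c.n m, _, v, (hR v).2 ⟨hc, hψ⟩⟩, fun w hw => ((hR w).1 hw).1,
    fun w hw => ((hR w).1 hw).2⟩

/-- Witness requirements. -/
def DW (l : ℕ) (φ : L.Formula (Fin l ⊕ Unit)) (i : Fin l → ℕ) : Set (Cond L M) :=
  {c | (∀ v, c.R v → ¬ ∃ a, φ.Realize (Sum.elim (v ∘ i) (fun _ => a))) ∨
    ∃ j, ∀ v, c.R v → φ.Realize (v ∘ Sum.elim i (fun _ => j))}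

theorem DW_cofinal (l : ℕ) (φ : L.Formula (Fin l ⊕ Unit)) (i : Fin l → ℕ) (c : Cond L M) :
    ∃ c' ∈ DW l φ i, c ≤ c' := by
  by_cases h : ∃ v, c.R v ∧ ¬ ∃ a, φ.Realize (Sum.elim (v ∘ i) (fun _ => a))
  · obtain ⟨v, hv, hn⟩ := h
    have hr : ∀ w : ℕ → M, (φ.iExs Unit).not.Realize (w ∘ i) ↔
        ¬ ∃ a, φ.Realize (Sum.elim (w ∘ i) (fun _ => a)) := by
      intro w
      rw [Formula.realize_not, Formula.realize_iExs]
      apply not_congr
      constructor
      · rintro ⟨f, hf⟩
        refine ⟨f (), ?_⟩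
        have : f = fun _ => f () := by funext u; cases u; rfl
        rwa [this] at hf
      · rintro ⟨a, ha⟩
        exact ⟨fun _ => a, ha⟩
    obtain ⟨c', h1, h2⟩ := c.extend (φ.iExs Unit).not i v hv ((hr v).2 hn)
    exact ⟨c', Or.inl fun w hw => (hr w).1 (h2 w hw), h1⟩
  · push Not at h
    obtain ⟨v, hv⟩ := c.sat
    obtain ⟨a, ha⟩ := h v hv
    obtain ⟨m, hm⟩ := exists_bound i
    let j := max c.n m
    let v' : ℕ → M := Function.update v j a
    have hlt : ∀ k, k < j → v' k = v k := fun k hk => Function.update_of_ne (by omega) _ _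
    have hcv' : c.R v' := by
      have : (fun k : Fin c.n => v' k) = fun k : Fin c.n => v k := by
        funext k
        exact hlt k (k.2.trans_le (le_max_left _ _))
      unfold Cond.R
      rw [this]
      exact hv
    have hφ : φ.Realize (v' ∘ Sum.elim i (fun _ => j)) := by
      have : v' ∘ Sum.elim i (fun _ : Unit => j) = Sum.elim (v ∘ i) (fun _ : Unit => a) := by
        funext o
        rcases o with k | u
        · exact hlt (i k) ((hm k).trans_le (le_max_right _ _))
        · exact Function.update_self _ _ _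
      rw [this]
      exact ha
    obtain ⟨c', h1, h2⟩ := c.extend φ (Sum.elim i (fun _ => j)) v' hcv' hφ
    exact ⟨c', Or.inr ⟨j, h2⟩, h1⟩

/-- Omission requirements. -/
def DO {ι : Type} (x : ι → M) (i : ι → ℕ) : Set (Cond L M) :=
  {c | ∃ ψ : L.Formula ι, ψ.Realize x ∧ ∀ v, c.R v → ψ.not.Realize (v ∘ i)}

theorem DO_cofinal {ι : Type} [Finite ι] (x : ι → M) (hx : ¬ Isolated L x) (i : ι → ℕ)
    (c : Cond L M) : ∃ c' ∈ DO x i, c ≤ c' := by
  by_contra hcon
  push Not at hcon
  apply hx
  obtain ⟨v₀, hv₀⟩ := c.sat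
  obtain ⟨m', hm'⟩ := exists_bound i
  let m := max c.n m'
  have him : ∀ k, i k < m := fun k => (hm' k).trans_le (le_max_right _ _)
  let θ : L.Formula ι := Formula.iExs (Fin m)
    ((c.θ.relabel (fun k => (Sum.inr (Fin.castLE (le_max_left _ _) k) : ι ⊕ Fin m))) ⊓
      Formula.iInf (fun k : ι => (Term.var (Sum.inr ⟨i k, him k⟩) : L.Term (ι ⊕ Fin m)).equal
        (Term.var (Sum.inl k))))
  have hθ : ∀ z : ι → M, θ.Realize z ↔ ∃ v, c.R v ∧ v ∘ i = z := by
    intro z
    rw [Formula.realize_iExs]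
    constructor
    · rintro ⟨w, hw⟩
      rw [Formula.realize_inf, Formula.realize_relabel, Formula.realize_iInf] at hw
      refine ⟨fun k => if h : k < m then w ⟨k, h⟩ else v₀ k, ?_, ?_⟩
      · have h1 := hw.1
        unfold Cond.R
        convert h1 using 1
        funext k
        have : (k : ℕ) < m := k.2.trans_le (le_max_left _ _)
        simp only [this, dite_true, Function.comp, Sum.elim_inr]
        rfl
      · funext k
        have h2 := hw.2 k
        rw [Formula.realize_equal] at h2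
        simp only [Function.comp, him k, dite_true]
        exact h2
    · rintro ⟨v, hv, rfl⟩
      refine ⟨fun k => v k, ?_⟩
      rw [Formula.realize_inf, Formula.realize_relabel, Formula.realize_iInf]
      refine ⟨hv, fun k => ?_⟩
      rw [Formula.realize_equal]
      rfl
  have hsame : ∀ z : ι → M, θ.Realize z → SameType L x z := by
    intro z hz ψ
    obtain ⟨v, hv, rfl⟩ := (hθ z).1 hz
    constructor
    · intro h1
      by_contra h2
      obtain ⟨c', h3, h4⟩ := c.extend ψ.not i v hv (by rwa [Formula.realize_not])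
      exact hcon c' ⟨ψ, h1, h4⟩ h3
    · intro h1
      by_contra h2
      obtain ⟨c', h3, h4⟩ := c.extend ψ i v hv h1
      refine hcon c' ⟨ψ.not, by rwa [Formula.realize_not], fun w hw => ?_⟩ h3
      rw [Formula.realize_not, Formula.realize_not, not_not]
      exact h4 w hw
  refine ⟨θ, ?_, hsame⟩
  have h1 : θ.Realize (v₀ ∘ i) := (hθ _).2 ⟨v₀, hv₀, rfl⟩
  exact (hsame _ h1 θ).2 h1

theorem countable_formula [Countable L.Symbols] (α : Type) [Countable α] :
    Countable (L.Formula α) := by
  have h := @BoundedFormula.card_le L α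
  have h1 : Cardinal.mk α ≤ Cardinal.aleph0 := Cardinal.mk_le_aleph0
  have h2 : L.card ≤ Cardinal.aleph0 := Cardinal.mk_le_aleph0 (α := L.Symbols)
  have h3 : Cardinal.mk (Σ n, L.BoundedFormula α n) ≤ Cardinal.aleph0 := by
    refine h.trans (max_le le_rfl ?_)
    rw [Cardinal.lift_id, Cardinal.lift_id]
    exact (add_le_add h1 h2).trans (by simp)
  have h4 : Countable (Σ n, L.BoundedFormula α n) := Cardinal.mk_le_aleph0_iff.1 h3
  exact Function.Injective.countable (f := fun φ : L.Formula α =>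
    (⟨0, φ⟩ : Σ n, L.BoundedFormula α n)) (fun a b hab => by
      simpa using hab)


/-- Omitting types: a tuple of the countable structure whose type is not isolated is omitted in
some countable elementarily equivalent structure. -/
theorem isolated_of_categorical [Countable L.Symbols] [Countable M] [Infinite M]
    (hcat : Cardinal.Categorical.{0, 0, 0} Cardinal.aleph0 (L.completeTheory M))
    {ι : Type} [Finite ι] (x : ι → M) : Isolated L x := by
  classical
  by_contra hx
  have hcf : ∀ l, Countable (L.Formula (Fin l ⊕ Unit)) := fun l => countable_formula _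
  let J : Type := (Σ l, L.Formula (Fin l ⊕ Unit) × (Fin l → ℕ)) ⊕ (ι → ℕ)
  have hJ : Countable J := inferInstance
  let _ : Encodable J := Encodable.ofCountable J
  let D : J → Order.Cofinal (Cond L M) := fun c => match c with
    | Sum.inl ⟨l, φ, i⟩ => ⟨DW l φ i, fun c => DW_cofinal l φ i c⟩
    | Sum.inr i => ⟨DO x i, fun c => DO_cofinal x hx i c⟩
  obtain ⟨p₀⟩ : Nonempty M := inferInstance
  let c₀ : Cond L M := ⟨0, ⊤, fun _ => p₀, by simp⟩
  let I := Order.idealOfCofinals c₀ D
  have hIW : ∀ (l : ℕ) (φ : L.Formula (Fin l ⊕ Unit)) (i : Fin l → ℕ), ∃ c ∈ I, c ∈ DW l φ i := by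
    intro l φ i
    obtain ⟨c, h1, h2⟩ := Order.cofinal_meets_idealOfCofinals c₀ D (Sum.inl ⟨l, φ, i⟩)
    exact ⟨c, h2, h1⟩
  have hIO : ∀ i : ι → ℕ, ∃ c ∈ I, c ∈ DO x i := by
    intro i
    obtain ⟨c, h1, h2⟩ := Order.cofinal_meets_idealOfCofinals c₀ D (Sum.inr i)
    exact ⟨c, h2, h1⟩
  let K : Type := {c : Cond L M // c ∈ I}
  have : Nonempty K := ⟨⟨c₀, Order.mem_idealOfCofinals _ _⟩⟩
  have : IsDirectedOrder K := ⟨fun a b => by
    obtain ⟨c, hc, h1, h2⟩ := I.directed a.1 a.2 b.1 b.2
    exact ⟨⟨c, hc⟩, h1, h2⟩⟩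
  let u : Ultrafilter K := Ultrafilter.of Filter.atTop
  have hu : ∀ c : K, ∀ᶠ c' in (u : Filter K), c ≤ c' := fun c =>
    Ultrafilter.of_le _ (Filter.eventually_ge_atTop c)
  let vv : K → ℕ → M := fun c => c.1.sat.choose
  have hvv : ∀ c : K, c.1.R (vv c) := fun c => c.1.sat.choose_spec
  let N : Type := (u : Filter K).Product (fun _ => M)
  let b : ℕ → N := fun j => ((fun c => vv c j : K → M) : (u : Filter K).Product (fun _ => M))
  have hit : ∀ (α : Type) (ψ : L.Formula α) (g : α → ℕ) (c : Cond L M), c ∈ I →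
      (∀ v, c.R v → ψ.Realize (v ∘ g)) → ψ.Realize (b ∘ g) := by
    intro α ψ g c hc h
    have h1 := Ultraproduct.realize_formula_cast (M := fun _ : K => M) (u := u) ψ
      (fun a c => vv c (g a))
    refine h1.2 ((hu ⟨c, hc⟩).mono fun c' hc' => ?_)
    exact h _ (hc' _ (hvv c'))
  have hMN : M ≅[L] N := by
    rw [elementarilyEquivalent_iff]
    intro ψ
    have := Ultraproduct.sentence_realize (M := fun _ : K => M) (u := u) ψ
    rw [Filter.eventually_const] at this
    exact this.symm
  have hNinf : Infinite N := hMN.infinite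
  -- the elements named by the generic sequence form an elementary substructure
  have hclosed : ∀ {l : ℕ} (f : L.Functions l), ClosedUnder f (Set.range b) := by
    intro l f y hy
    choose i hi using hy
    obtain ⟨c, hc, hcD⟩ := hIW l ((Term.func f (fun k => Term.var (Sum.inl k))).equal
      (Term.var (Sum.inr ()))) i
    rcases hcD with h | ⟨j, hj⟩
    · exfalso
      obtain ⟨v, hv⟩ := c.sat
      apply h v hv
      refine ⟨Structure.funMap f (v ∘ i), ?_⟩
      rw [Formula.realize_equal]
      rfl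
    · refine ⟨j, ?_⟩
      have h1 := hit _ _ (Sum.elim i (fun _ => j)) c hc hj
      rw [Formula.realize_equal] at h1
      have h2 : Structure.funMap f (fun k => b (i k)) = b j := h1
      rw [← h2]
      congr 1
      funext k
      exact hi k
  let S : L.Substructure N := ⟨Set.range b, hclosed⟩
  have hel : S.IsElementary := by
    apply S.isElementary_of_exists
    intro n φ y a hφ
    have hy : ∀ k, ∃ i, b i = (y k : N) := fun k => (y k).2
    choose i hi using hy
    let r : Empty ⊕ Fin (n + 1) → Fin n ⊕ Unit :=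
      Sum.elim Empty.elim (Fin.lastCases (Sum.inr ()) (fun k => Sum.inl k))
    let φ' : L.Formula (Fin n ⊕ Unit) := φ.toFormula.relabel r
    have hφ' : ∀ (z : Fin n → N) (a : N), φ'.Realize (Sum.elim z (fun _ => a)) ↔
        φ.Realize default (Fin.snoc z a : Fin (n + 1) → N) := by
      intro z a
      rw [Formula.realize_relabel, BoundedFormula.realize_toFormula]
      have e1 : ((Sum.elim z fun _ => a) ∘ r) ∘ Sum.inl = (default : Empty → N) :=
        Subsingleton.elim _ _
      have e2 : ((Sum.elim z fun _ => a) ∘ r) ∘ Sum.inr = (Fin.snoc z a : Fin (n + 1) → N) := by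
        funext k
        refine Fin.lastCases ?_ (fun k => ?_) k
        · simp [r]
        · simp [r]
      rw [e1, e2]
    have hyi : (Subtype.val ∘ y) = b ∘ i := by
      funext k
      exact (hi k).symm
    rw [hyi] at hφ ⊢
    obtain ⟨c, hc, hcD⟩ := hIW n φ' i
    rcases hcD with h | ⟨j, hj⟩
    · exfalso
      have h1 := hit _ (φ'.iExs Unit).not i c hc (fun v hv => by
        rw [Formula.realize_not, Formula.realize_iExs]
        rintro ⟨f, hf⟩
        apply h v hv
        refine ⟨f (), ?_⟩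
        have : f = fun _ => f () := by funext w; cases w; rfl
        rwa [this] at hf)
      rw [Formula.realize_not, Formula.realize_iExs] at h1
      exact h1 ⟨fun _ => a, (hφ' _ _).2 hφ⟩
    · have h1 := hit _ _ (Sum.elim i (fun _ => j)) c hc hj
      refine ⟨⟨b j, j, rfl⟩, ?_⟩
      rw [← hφ']
      convert h1 using 1
      funext o
      rcases o with k | w <;> rfl
  let E : L.ElementarySubstructure N := ⟨S, hel⟩
  have hEN : E ≅[L] N := E.elementarilyEquivalent
  have hEM : M ≅[L] E := hMN.trans hEN.symm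
  have hEinf : Infinite E := hEM.infinite
  have hEc : Countable E := (Set.countable_range b).to_subtype
  have hE1 : Cardinal.mk E = Cardinal.aleph0 := Cardinal.mk_eq_aleph0 E
  have hM1 : Cardinal.mk M = Cardinal.aleph0 := Cardinal.mk_eq_aleph0 M
  have hEM' : (E : Type) ⊨ L.completeTheory M := by
    rw [hEM.completeTheory_eq]
    infer_instance
  obtain ⟨e⟩ := hcat (Theory.ModelType.of (L.completeTheory M) M)
    (Theory.ModelType.of (L.completeTheory M) E) hM1 hE1
  have e' : M ≃[L] E := e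
  have hi : ∀ k, ∃ i, b i = (e' (x k) : N) := fun k => (e' (x k)).2
  choose i hi using hi
  obtain ⟨c, hc, ψ, h1, h2⟩ := hIO i
  have h3 := hit _ _ i c hc h2
  rw [Formula.realize_not] at h3
  apply h3
  have h4 : ψ.Realize (e' ∘ x) := (StrongHomClass.realize_formula e' ψ (v := x)).2 h1
  have h5 := (E.subtype.map_formula ψ (e' ∘ x)).2 h4
  convert h5 using 1
  funext k
  exact hi k


/-- Every tuple satisfies one of finitely many isolating formulas. -/
theorem finite_types_of_categorical [Countable L.Symbols] [Countable M] [Infinite M]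
    (hcat : Cardinal.Categorical.{0, 0, 0} Cardinal.aleph0 (L.completeTheory M))
    (ι : Type) [Finite ι] : ∃ (F : Type) (_ : Finite F) (inv : (ι → M) → F),
      ∀ x y : ι → M, inv x = inv y → SameType L x y := by
  classical
  have hiso : ∀ x : ι → M, Isolated L x := fun x => isolated_of_categorical hcat x
  choose θ h1 h2 using hiso
  by_cases hfin : ∃ T : Finset (L.Formula ι), (∀ φ ∈ T, ∃ x, θ x = φ) ∧
      ∀ x : ι → M, ∃ φ ∈ T, φ.Realize x
  · obtain ⟨T, hT, hcov⟩ := hfin
    choose g hg hgx using hcov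
    refine ⟨↥T, inferInstance, fun x => ⟨g x, hg x⟩, fun x y hxy => ?_⟩
    have hxy' : g x = g y := congrArg Subtype.val hxy
    obtain ⟨z, hz⟩ := hT _ (hg x)
    have e1 := h2 z x (by rw [hz]; exact hgx x)
    have e2 := h2 z y (by rw [hz, hxy']; exact hgx y)
    exact fun φ => (e1 φ).symm.trans (e2 φ)
  · exfalso
    push Not at hfin
    let K : Type := {T : Finset (L.Formula ι) // ∀ φ ∈ T, ∃ x, θ x = φ}
    have : Nonempty K := ⟨⟨∅, fun φ hφ => absurd hφ (Finset.notMem_empty _)⟩⟩
    have : IsDirectedOrder K := ⟨fun a b => ⟨⟨a.1 ∪ b.1, fun φ hφ => by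
      rcases Finset.mem_union.1 hφ with h | h
      · exact a.2 φ h
      · exact b.2 φ h⟩, Finset.subset_union_left, Finset.subset_union_right⟩⟩
    let u : Ultrafilter K := Ultrafilter.of Filter.atTop
    have hu : ∀ c : K, ∀ᶠ c' in (u : Filter K), c ≤ c' := fun c =>
      Ultrafilter.of_le _ (Filter.eventually_ge_atTop c)
    have hw : ∀ T : K, ∃ x : ι → M, ∀ φ ∈ T.1, ¬ φ.Realize x := fun T => hfin T.1 T.2
    choose w hw using hw
    let N : Type := (u : Filter K).Product (fun _ => M)
    let y : ι → N := fun i => ((fun c => w c i : K → M) : (u : Filter K).Product (fun _ => M))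
    have hy : ∀ x : ι → M, ¬ (θ x).Realize y := by
      intro x h
      have h3 := Ultraproduct.realize_formula_cast (M := fun _ : K => M) (u := u) (θ x)
        (fun i c => w c i)
      have h4 := h3.1 h
      obtain ⟨c, hc, hc'⟩ := (h4.and (hu ⟨{θ x}, fun φ hφ => ⟨x, (Finset.mem_singleton.1 hφ).symm⟩⟩)).exists
      exact hw c (θ x) (hc' (Finset.mem_singleton_self _)) hc
    have hMN : M ≅[L] N := by
      rw [elementarilyEquivalent_iff]
      intro ψ
      have := Ultraproduct.sentence_realize (M := fun _ : K => M) (u := u) ψ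
      rw [Filter.eventually_const] at this
      exact this.symm
    have hNinf : Infinite N := hMN.infinite
    obtain ⟨S, hS1, hS2⟩ := exists_elementarySubstructure_card_eq L (Set.range y)
      Cardinal.aleph0 le_rfl (by
        rw [Cardinal.lift_id, Cardinal.lift_id]
        exact Cardinal.mk_le_aleph0_iff.2 (Set.finite_range y).countable.to_subtype)
      (by
        rw [Cardinal.lift_id, Cardinal.lift_id]
        exact Cardinal.mk_le_aleph0)
      (by
        rw [Cardinal.lift_id, Cardinal.lift_id]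
        exact Cardinal.aleph0_le_mk N)
    rw [Cardinal.lift_id, Cardinal.lift_id] at hS2
    have hS2' : Cardinal.mk S = Cardinal.aleph0 := hS2
    have hM1 : Cardinal.mk M = Cardinal.aleph0 := Cardinal.mk_eq_aleph0 M
    have hSM : (S : Type) ⊨ L.completeTheory M := by
      rw [(hMN.trans S.elementarilyEquivalent.symm).completeTheory_eq]
      infer_instance
    have hSne : Nonempty S := by
      rw [← Cardinal.mk_ne_zero_iff, hS2']
      exact Cardinal.aleph0_ne_zero
    obtain ⟨e⟩ := hcat (Theory.ModelType.of (L.completeTheory M) S)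
      (Theory.ModelType.of (L.completeTheory M) M) hS2' hM1
    have e' : S ≃[L] M := e
    let y' : ι → S := fun i => ⟨y i, hS1 ⟨i, rfl⟩⟩
    apply hy (e' ∘ y')
    have h3 : (θ (e' ∘ y')).Realize (e' ∘ y') := h1 _
    have h4 : (θ (e' ∘ y')).Realize y' := (StrongHomClass.realize_formula e' _ (v := y')).1 h3
    exact (S.subtype.map_formula _ y').2 h4

/-- A finite set of pairs is an elementary partial map. -/
def PP (L : FirstOrder.Language.{0, 0}) [L.Structure M] (S : Finset (M × M)) : Prop :=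
  ∀ φ : L.Formula ↥S, (φ.Realize (fun p => p.1.1) ↔ φ.Realize (fun p => p.1.2))

theorem PP_insert {S : Finset (M × M)} {a : M} {b : M} [DecidableEq (M × M)]
    (h : ∀ φ : L.Formula (↥S ⊕ Unit),
      (φ.Realize (Sum.elim (fun p => p.1.1) (fun _ => a)) ↔
        φ.Realize (Sum.elim (fun p => p.1.2) (fun _ => b)))) : PP L (insert (a, b) S) := by
  classical
  intro φ
  let g : ↥(insert (a, b) S) → ↥S ⊕ Unit := fun p =>
    if hp : p.1 ∈ S then Sum.inl ⟨p.1, hp⟩ else Sum.inr ()
  have h0 : ∀ p : ↥(insert (a, b) S), p.1 ∉ S → p.1 = (a, b) := by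
    intro p hp
    rcases Finset.mem_insert.1 p.2 with h | h
    · exact h
    · exact absurd h hp
  have e1 : (fun p : ↥(insert (a, b) S) => p.1.1) =
      (Sum.elim (fun p => p.1.1) (fun _ => a) : ↥S ⊕ Unit → M) ∘ g := by
    funext p
    by_cases hp : p.1 ∈ S
    · simp [g, hp]
    · simp only [g, hp, Function.comp, dite_false, Sum.elim_inr]
      rw [h0 p hp]
  have e2 : (fun p : ↥(insert (a, b) S) => p.1.2) =
      (Sum.elim (fun p => p.1.2) (fun _ => b) : ↥S ⊕ Unit → M) ∘ g := by
    funext p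
    by_cases hp : p.1 ∈ S
    · simp [g, hp]
    · simp only [g, hp, Function.comp, dite_false, Sum.elim_inr]
      rw [h0 p hp]
  rw [e1, e2, ← Formula.realize_relabel, ← Formula.realize_relabel]
  exact h _

theorem forth (hiso : ∀ (ι : Type) [Finite ι] (x : ι → M), Isolated L x)
    [DecidableEq (M × M)] {S : Finset (M × M)} (hS : PP L S) (a : M) :
    ∃ b, PP L (insert (a, b) S) := by
  obtain ⟨θ, h1, h2⟩ := hiso (↥S ⊕ Unit) (Sum.elim (fun p => p.1.1) (fun _ => a))
  have : (θ.iExs Unit).Realize (fun p : ↥S => p.1.1) := by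
    rw [Formula.realize_iExs]
    exact ⟨fun _ => a, h1⟩
  rw [hS, Formula.realize_iExs] at this
  obtain ⟨b, hb⟩ := this
  have hb' : b = fun _ => b () := by funext u; cases u; rfl
  rw [hb'] at hb
  exact ⟨b (), PP_insert (h2 _ hb)⟩

theorem back (hiso : ∀ (ι : Type) [Finite ι] (x : ι → M), Isolated L x)
    [DecidableEq (M × M)] {S : Finset (M × M)} (hS : PP L S) (b : M) :
    ∃ a, PP L (insert (a, b) S) := by
  obtain ⟨θ, h1, h2⟩ := hiso (↥S ⊕ Unit) (Sum.elim (fun p => p.1.2) (fun _ => b))
  have : (θ.iExs Unit).Realize (fun p : ↥S => p.1.2) := by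
    rw [Formula.realize_iExs]
    exact ⟨fun _ => b, h1⟩
  rw [← hS, Formula.realize_iExs] at this
  obtain ⟨a, ha⟩ := this
  have ha' : a = fun _ => a () := by funext u; cases u; rfl
  rw [ha'] at ha
  exact ⟨a (), PP_insert (fun φ => (h2 _ ha φ).symm)⟩

/-- Homogeneity: tuples of the same type are conjugate under the automorphism group. -/
theorem homogeneous [Countable M] (hiso : ∀ (ι : Type) [Finite ι] (x : ι → M), Isolated L x)
    {ι : Type} [Finite ι] (x y : ι → M) (hxy : SameType L x y) :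
    ∃ g : M ≃[L] M, ∀ i, g (x i) = y i := by
  classical
  have := Fintype.ofFinite ι
  let _ := Encodable.ofCountable M
  let P : Type := {S : Finset (M × M) // PP L S}
  let D : M ⊕ M → Order.Cofinal P := fun c => match c with
    | Sum.inl a => ⟨{S | ∃ b, (a, b) ∈ S.1}, fun S => by
        obtain ⟨b, hb⟩ := forth hiso S.2 a
        exact ⟨⟨_, hb⟩, ⟨b, Finset.mem_insert_self _ _⟩, Finset.subset_insert _ _⟩⟩
    | Sum.inr b => ⟨{S | ∃ a, (a, b) ∈ S.1}, fun S => by
        obtain ⟨a, ha⟩ := back hiso S.2 b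
        exact ⟨⟨_, ha⟩, ⟨a, Finset.mem_insert_self _ _⟩, Finset.subset_insert _ _⟩⟩
  let S₀ : Finset (M × M) := Finset.univ.image (fun i : ι => (x i, y i))
  have h0 : PP L S₀ := by
    intro φ
    have hc : ∀ p : ↥S₀, ∃ i, (x i, y i) = p.1 := by
      intro p
      obtain ⟨i, -, hi⟩ := Finset.mem_image.1 p.2
      exact ⟨i, hi⟩
    choose c hc using hc
    have := hxy (φ.relabel c)
    rw [Formula.realize_relabel, Formula.realize_relabel] at this
    have e1 : (x ∘ c) = fun p : ↥S₀ => p.1.1 := by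
      funext p
      rw [← hc p]
      rfl
    have e2 : (y ∘ c) = fun p : ↥S₀ => p.1.2 := by
      funext p
      rw [← hc p]
      rfl
    rwa [e1, e2] at this
  let I := Order.idealOfCofinals (⟨S₀, h0⟩ : P) D
  have hL : ∀ a : M, ∃ b, ∃ S : P, S ∈ I ∧ (a, b) ∈ S.1 := by
    intro a
    obtain ⟨S, ⟨b, hb⟩, hS⟩ := Order.cofinal_meets_idealOfCofinals (⟨S₀, h0⟩ : P) D (Sum.inl a)
    exact ⟨b, S, hS, hb⟩
  have hR : ∀ b : M, ∃ a, ∃ S : P, S ∈ I ∧ (a, b) ∈ S.1 := by
    intro b
    obtain ⟨S, ⟨a, ha⟩, hS⟩ := Order.cofinal_meets_idealOfCofinals (⟨S₀, h0⟩ : P) D (Sum.inr b)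
    exact ⟨a, S, hS, ha⟩
  choose f hf using hL
  have hfinite : ∀ (n : ℕ) (p : Fin n → M × M), (∀ i, ∃ S : P, S ∈ I ∧ p i ∈ S.1) →
      ∃ S : P, S ∈ I ∧ ∀ i, p i ∈ S.1 := by
    intro n
    induction n with
    | zero =>
      intro p _
      exact ⟨⟨S₀, h0⟩, Order.mem_idealOfCofinals _ _, fun i => i.elim0⟩
    | succ n ih =>
      intro p hp
      obtain ⟨S, hS, hSp⟩ := ih (fun i => p i.castSucc) (fun i => hp _)
      obtain ⟨S', hS', hSp'⟩ := hp (Fin.last n)
      obtain ⟨S'', hS'', h1, h2⟩ := I.directed S hS S' hS'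
      refine ⟨S'', hS'', fun i => ?_⟩
      refine Fin.lastCases ?_ (fun i => ?_) i
      · exact h2 hSp'
      · exact h1 (hSp i)
  have hpres : ∀ (n : ℕ) (p : Fin n → M × M), (∀ i, ∃ S : P, S ∈ I ∧ p i ∈ S.1) →
      ∀ φ : L.Formula (Fin n), (φ.Realize (fun i => (p i).1) ↔ φ.Realize (fun i => (p i).2)) := by
    intro n p hp φ
    obtain ⟨S, -, hS⟩ := hfinite n p hp
    have := S.2 (φ.relabel (fun i => (⟨p i, hS i⟩ : ↥S.1)))
    rw [Formula.realize_relabel, Formula.realize_relabel] at this
    exact this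
  have hfun : ∀ a b a' b', (∃ S : P, S ∈ I ∧ (a, b) ∈ S.1) → (∃ S : P, S ∈ I ∧ (a', b') ∈ S.1) →
      (a = a' ↔ b = b') := by
    intro a b a' b' h h'
    have := hpres 2 ![(a, b), (a', b')] (by
      intro i
      fin_cases i
      · exact h
      · exact h') ((Term.var (0 : Fin 2)).equal (Term.var (1 : Fin 2)))
    simpa [Formula.realize_equal] using this
  have hinj : Function.Injective f := fun a a' h => (hfun a (f a) a' (f a') (hf a) (hf a')).2 h
  have hsurj : Function.Surjective f := by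
    intro b
    obtain ⟨a, ha⟩ := hR b
    exact ⟨a, (hfun a (f a) a b (hf a) ha).1 rfl⟩
  refine ⟨{ toEquiv := Equiv.ofBijective f ⟨hinj, hsurj⟩, map_fun' := ?_, map_rel' := ?_ }, ?_⟩
  · intro n g z
    have := hpres (n + 1) (Fin.snoc (fun i => (z i, f (z i)))
        (Structure.funMap g z, f (Structure.funMap g z))) (by
      intro i
      refine Fin.lastCases ?_ (fun i => ?_) i
      · rw [Fin.snoc_last]; exact hf _
      · rw [Fin.snoc_castSucc]; exact hf _)
      ((Term.func g (fun i => Term.var (Fin.castSucc i))).equal (Term.var (Fin.last n)))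
    rw [Formula.realize_equal, Formula.realize_equal] at this
    simp only [Term.realize_func, Term.realize_var, Fin.snoc_castSucc, Fin.snoc_last] at this
    exact (this.1 trivial).symm
  · intro n r z
    have := hpres n (fun i => (z i, f (z i))) (fun i => hf _)
      (r.formula (fun i => Term.var i))
    rw [Formula.realize_rel, Formula.realize_rel] at this
    exact this.symm
  · intro i
    exact (hfun (x i) (f (x i)) (x i) (y i) (hf _) ⟨⟨S₀, h0⟩, Order.mem_idealOfCofinals _ _,
      Finset.mem_image.2 ⟨i, Finset.mem_univ _, rfl⟩⟩).1 rfl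

end RN


open Filter Topology

section limits

variable {Ω : Type*}

/-- Every finite power of `Ω` is covered by finitely many classes inside which points are
conjugate by `G`. -/
def FinOrbits (G : Set (Ω → Ω)) : Prop :=
  ∀ (ι : Type) [Finite ι], ∃ (F : Type) (_ : Finite F) (q : (ι → Ω) → F),
    ∀ t t' : ι → Ω, q t = q t' → ∃ g ∈ G, ∀ i, g (t i) = t' i

/-- One step of the construction: an initial segment that is realised for almost all `x` can be
extended by one more value. -/
theorem step {G : Set (Ω → Ω)} (hmul : ∀ g ∈ G, ∀ h ∈ G, g ∘ h ∈ G) (hol : FinOrbits G)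
    {X : Type*} (U : Ultrafilter X) (s : X → Ω → Ω) (b : ℕ → Ω)
    (n : ℕ) (y : ℕ → Ω × Ω)
    (hy : ∀ᶠ x in (U : Filter X), ∃ g ∈ G, ∀ i < n, g (b i) = (y i).1 ∧
      g (s x (b i)) = (y i).2) :
    ∃ z : Ω × Ω, ∀ᶠ x in (U : Filter X), ∃ g ∈ G, (∀ i < n, g (b i) = (y i).1 ∧
      g (s x (b i)) = (y i).2) ∧ g (b n) = z.1 ∧ g (s x (b n)) = z.2 := by
  obtain ⟨F, _, q, hq⟩ := hol (Fin (n + 1) ⊕ Fin (n + 1))
  let t : X → (Fin (n + 1) ⊕ Fin (n + 1)) → Ω :=
    fun x => Sum.elim (fun i => b i) (fun i => s x (b i))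
  obtain ⟨c, hc⟩ := Ultrafilter.eq_pure_of_finite (U.map fun x => q (t x))
  have hc' : ∀ᶠ x in (U : Filter X), q (t x) = c := by
    have : {c} ∈ U.map fun x => q (t x) := by rw [hc]; exact Set.mem_singleton c
    exact this
  obtain ⟨x0, hx0, g0, hg0G, hg0⟩ := (hc'.and hy).exists
  refine ⟨(g0 (b n), g0 (s x0 (b n))), ?_⟩
  filter_upwards [hc'] with x hx
  obtain ⟨h, hhG, hh⟩ := hq (t x) (t x0) (hx.trans hx0.symm)
  have hl : ∀ i < n + 1, h (b i) = b i := fun i hi => hh (Sum.inl ⟨i, hi⟩)
  have hr : ∀ i < n + 1, h (s x (b i)) = s x0 (b i) := fun i hi => hh (Sum.inr ⟨i, hi⟩)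
  refine ⟨g0 ∘ h, hmul _ hg0G _ hhG, ?_, ?_, ?_⟩
  · intro i hi
    rw [Function.comp, Function.comp, hl i (by omega), hr i (by omega)]
    exact hg0 i hi
  · rw [Function.comp, hl n (by omega)]
  · rw [Function.comp, hr n (by omega)]

theorem exists_limit_seq {G : Set (Ω → Ω)} (hmul : ∀ g ∈ G, ∀ h ∈ G, g ∘ h ∈ G) (hid : id ∈ G)
    (hol : FinOrbits G) {X : Type*} (U : Ultrafilter X) (s : X → Ω → Ω) (b : ℕ → Ω) :
    ∃ y : ℕ → Ω × Ω, ∀ n, ∀ᶠ x in (U : Filter X), ∃ g ∈ G, ∀ i < n, g (b i) = (y i).1 ∧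
      g (s x (b i)) = (y i).2 := by
  classical
  let P : ℕ → (ℕ → Ω × Ω) → Prop := fun n y =>
    ∀ᶠ x in (U : Filter X), ∃ g ∈ G, ∀ i < n, g (b i) = (y i).1 ∧ g (s x (b i)) = (y i).2
  have hstep : ∀ n (y : {y // P n y}), ∃ y' : {y // P (n + 1) y}, ∀ i < n, y'.1 i = y.1 i := by
    intro n y
    obtain ⟨z, hz⟩ := step hmul hol U s b n y.1 y.2
    refine ⟨⟨Function.update y.1 n z, ?_⟩, ?_⟩
    · filter_upwards [hz] with x hx
      obtain ⟨g, hgG, h1, h2, h3⟩ := hx
      refine ⟨g, hgG, fun i hi => ?_⟩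
      rcases Nat.lt_succ_iff_lt_or_eq.1 hi with h | h
      · rw [Function.update_of_ne (by omega)]; exact h1 i h
      · subst h; rw [Function.update_self]; exact ⟨h2, h3⟩
    · intro i hi
      exact Function.update_of_ne (by omega) _ _
  choose F hF using hstep
  let Y : ∀ n, {y // P n y} := fun n =>
    Nat.rec (motive := fun n => {y // P n y})
      ⟨fun _ => (b 0, b 0),
        Eventually.of_forall fun _ => ⟨id, hid, fun i hi => (Nat.not_lt_zero i hi).elim⟩⟩
      (fun n y => F n y) n
  have hY : ∀ n, ∀ i < n, (Y (n + 1)).1 i = (Y n).1 i := fun n i hi => hF n (Y n) i hi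
  have hY' : ∀ i k, (Y (i + 1 + k)).1 i = (Y (i + 1)).1 i := by
    intro i k
    induction k with
    | zero => rfl
    | succ k ih => rw [← ih]; exact hY (i + 1 + k) i (by omega)
  refine ⟨fun i => (Y (i + 1)).1 i, fun n => ?_⟩
  filter_upwards [(Y n).2] with x hx
  obtain ⟨g, hgG, hg⟩ := hx
  refine ⟨g, hgG, fun i hi => ?_⟩
  have := hY' i (n - (i + 1))
  rw [show i + 1 + (n - (i + 1)) = n by omega] at this
  rw [← this]
  exact hg i hi

/-- Left multiplication by suitable elements of `G` makes an ultrafilter of pairs `(1, s x)`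
converge. -/
theorem exists_limit [Countable Ω] [Nonempty Ω] {G : Set (Ω → Ω)}
    (hmul : ∀ g ∈ G, ∀ h ∈ G, g ∘ h ∈ G) (hid : id ∈ G)
    (hol : FinOrbits G) {X : Type*} (U : Ultrafilter X) (s : X → Ω → Ω) :
    ∃ e s' : Ω → Ω, ∀ B : Finset Ω, ∀ᶠ x in (U : Filter X), ∃ g ∈ G,
      ∀ a ∈ B, g a = e a ∧ g (s x a) = s' a := by
  obtain ⟨b, hb⟩ := exists_surjective_nat Ω
  obtain ⟨y, hy⟩ := exists_limit_seq hmul hid hol U s b
  choose idx hidx using hb
  refine ⟨fun a => (y (idx a)).1, fun a => (y (idx a)).2, fun B => ?_⟩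
  filter_upwards [hy (B.sup idx + 1)] with x hx
  obtain ⟨g, hgG, hg⟩ := hx
  refine ⟨g, hgG, fun a ha => ?_⟩
  have h := hg (idx a) (Nat.lt_succ_of_le (Finset.le_sup ha))
  rwa [hidx a] at h

end limits

section main

variable {L : FirstOrder.Language.{0, 0}} {M : Type} [L.Structure M]

theorem exists_finset_aux (g : M → M) (V : Set (M → M))
    (hV : V ∈ @nhds (M → M) (@Pi.topologicalSpace M (fun _ => M) (fun _ => ⊥)) g) :
    ∃ B : Finset M, ∀ r : M → M, (∀ b ∈ B, r b = g b) → r ∈ V := by
  let _ : TopologicalSpace M := ⊥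
  have _ : DiscreteTopology M := ⟨rfl⟩
  rw [nhds_pi, Filter.mem_pi'] at hV
  obtain ⟨I, t, ht, hI⟩ := hV
  refine ⟨I, fun r hr => hI ?_⟩
  intro i hi
  rw [hr i hi]
  exact mem_of_mem_nhds (ht i)

theorem exists_finset_of_mem_nhds {g : M →[L] M} {V : Set (M →[L] M)}
    (hV : V ∈ @nhds _ (pointwise L M) g) :
    ∃ B : Finset M, ∀ r : M →[L] M, (∀ b ∈ B, r b = g b) → r ∈ V := by
  rw [@nhds_induced _ _ (@Pi.topologicalSpace M (fun _ => M) (fun _ => ⊥)), mem_comap] at hV
  obtain ⟨W, hW, hWV⟩ := hV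
  obtain ⟨B, hB⟩ := exists_finset_aux _ _ hW
  exact ⟨B, fun r hr => hWV (hB r hr)⟩

/-- Pointwise limits of endomorphisms are endomorphisms. -/
theorem exists_hom (f : M → M)
    (h : ∀ B : Finset M, ∃ r : M →[L] M, ∀ b ∈ B, r b = f b) : ∃ r : M →[L] M, ∀ a, r a = f a := by
  classical
  refine ⟨⟨f, ?_, ?_⟩, fun a => rfl⟩
  · intro n g x
    obtain ⟨r, hr⟩ := h (insert (Structure.funMap g x) (Finset.univ.image x))
    rw [← hr _ (Finset.mem_insert_self _ _), r.map_fun]
    congr 1
    funext i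
    exact hr _ (Finset.mem_insert_of_mem (Finset.mem_image_of_mem _ (Finset.mem_univ i)))
  · intro n R x hx
    obtain ⟨r, hr⟩ := h (Finset.univ.image x)
    have h1 := r.map_rel R x hx
    convert h1 using 1
    funext i
    exact (hr _ (Finset.mem_image_of_mem _ (Finset.mem_univ i))).symm

/-- The automorphisms of `M`, as maps. -/
def autMaps (L : FirstOrder.Language.{0, 0}) (M : Type) [L.Structure M] : Set (M → M) :=
  Set.range fun g : M ≃[L] M => (g : M → M)

theorem finOrbits [Countable L.Symbols] [Countable M] [Infinite M]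
    (hcat : OmegaCategorical L M) : FinOrbits (autMaps L M) := by
  intro ι _
  obtain ⟨F, hF, q, hq⟩ := finite_types_of_categorical hcat ι
  refine ⟨F, hF, q, fun t t' htt => ?_⟩
  obtain ⟨g, hg⟩ := homogeneous (fun κ _ x => isolated_of_categorical hcat x) t t' (hq t t' htt)
  exact ⟨g, ⟨g, rfl⟩, hg⟩

/-- **Answer to Q1 (negative).**  Let `M` be a countably infinite structure in a countable
language whose complete theory is countably categorical.  Then every Hausdorff semigroup topology
on the monoid `End(M)` that is coarser than the topology of pointwise convergence is equal to the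
topology of pointwise convergence. -/
theorem result (L : FirstOrder.Language.{0, 0}) [Countable L.Symbols] (M : Type) [L.Structure M]
    [Countable M] [Infinite M] (hcat : OmegaCategorical L M) (τ : TopologicalSpace (M →[L] M))
    (hT2 : @T2Space _ τ) (hsg : IsSemigroupTopology τ) (hle : pointwise L M ≤ τ) :
    τ = pointwise L M := by
  classical
  refine le_antisymm ?_ hle
  rw [← continuous_id_iff_le]
  -- `id : (End M, τ) → (End M, pointwise)` is continuous
  rw [@continuous_iff_ultrafilter _ _ τ (pointwise L M)]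
  intro s U hU
  rw [@nhds_induced _ _ (@Pi.topologicalSpace M (fun _ => M) (fun _ => ⊥)), tendsto_comap_iff]
  let _ : TopologicalSpace M := ⊥
  have _ : DiscreteTopology M := ⟨rfl⟩
  rw [tendsto_pi_nhds]
  intro a
  rw [nhds_discrete, tendsto_pure]
  obtain ⟨e₀, s₀, hes⟩ := exists_limit (G := autMaps L M)
    (by rintro _ ⟨g, rfl⟩ _ ⟨h, rfl⟩; exact ⟨g.comp h, rfl⟩)
    ⟨FirstOrder.Language.Equiv.refl L M, rfl⟩ (finOrbits hcat) U (fun x : M →[L] M => (x : M → M))
  have he : ∃ e : M →[L] M, ∀ a, e a = e₀ a := by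
    refine exists_hom e₀ fun B => ?_
    obtain ⟨x, _, ⟨g, rfl⟩, hg⟩ := (hes B).exists
    exact ⟨g.toHom, fun b hb => (hg b hb).1⟩
  have hs' : ∃ s' : M →[L] M, ∀ a, s' a = s₀ a := by
    refine exists_hom s₀ fun B => ?_
    obtain ⟨x, _, ⟨g, rfl⟩, hg⟩ := (hes B).exists
    exact ⟨g.toHom.comp x, fun b hb => (hg b hb).2⟩
  obtain ⟨e, he⟩ := he
  obtain ⟨s', hs'⟩ := hs'
  have hkey : s' = e.comp s := by
    by_contra hne
    obtain ⟨V, W, hV, hW, hsV, heW, hVW⟩ := @t2_separation _ τ hT2 _ _ hne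
    have hWn : W ∈ @nhds _ τ (e.comp s) := (@IsOpen.mem_nhds_iff _ τ _ _ hW).2 heW
    have hpre : (fun p : (M →[L] M) × (M →[L] M) => p.1.comp p.2) ⁻¹' W ∈
        @nhds _ (@instTopologicalSpaceProd _ _ τ τ) (e, s) :=
      (@Continuous.tendsto _ _ (@instTopologicalSpaceProd _ _ τ τ) τ _ hsg (e, s)) hWn
    rw [@nhds_prod_eq _ _ τ τ, mem_prod_iff] at hpre
    obtain ⟨W1, hW1, W2, hW2, hW12⟩ := hpre
    have hV' : V ∈ @nhds _ (pointwise L M) s' :=
      (nhds_mono hle) ((@IsOpen.mem_nhds_iff _ τ _ _ hV).2 hsV)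
    have hW1' : W1 ∈ @nhds _ (pointwise L M) e := (nhds_mono hle) hW1
    obtain ⟨B1, hB1⟩ := exists_finset_of_mem_nhds hV'
    obtain ⟨B2, hB2⟩ := exists_finset_of_mem_nhds hW1'
    have hx2 : ∀ᶠ x in (U : Filter (M →[L] M)), x ∈ W2 := hU hW2
    obtain ⟨x, ⟨_, ⟨g, rfl⟩, hg⟩, hx⟩ := ((hes (B1 ∪ B2)).and hx2).exists
    have m1 : g.toHom.comp x ∈ V := hB1 _ fun b hb => by
      rw [hs']
      exact (hg b (Finset.mem_union_left _ hb)).2
    have m2 : g.toHom ∈ W1 := hB2 _ fun b hb => by
      rw [he]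
      exact (hg b (Finset.mem_union_right _ hb)).1
    have m3 : g.toHom.comp x ∈ W := hW12 (Set.mk_mem_prod m2 hx)
    exact Set.disjoint_left.1 hVW m1 m3
  filter_upwards [hes {a, s a}] with x hx
  obtain ⟨_, ⟨g, rfl⟩, hg⟩ := hx
  have h1 : g (x a) = s₀ a := (hg a (by simp)).2
  have h2 : g (s a) = e₀ (s a) := (hg (s a) (by simp)).1
  have h3 : s₀ a = e₀ (s a) := by
    rw [← he, ← hs', hkey]
    rfl
  apply g.injective
  change g (x a) = g (s a)
  rw [h1, h2, h3]

end main

end Pool.Agent.Results.MP_6e9b54_lc.MinimalTopology
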